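import Pool.Agent.Helper60.FF.StmtsC

/-!
# MP_8312c9_nt, module R1: quotients of values of `χ τ` at generic constants
-/

set_option autoImplicit false

namespace Pool.Agent.Helper60.FF

open Polynomial

theorem r1_ov_mono {p : ℕ} [Fact p.Prime] {A : Subfield ℂ_[p]}
    {E E' : IntermediateField ℚ_[p] ℂ_[p]} (h : E ≤ E') {c : RatFunc A} (hc : Ov A E c) :
    Ov A E' c := by
  obtain ⟨P, Q, hQ, hP', hQ', heq⟩ := hc
  exact ⟨P, Q, hQ, fun j => h (hP' j), fun j => h (hQ' j), heq⟩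

theorem r1_ext {p : ℕ} [Fact p.Prime] (E : IntermediateField ℚ_[p] ℂ_[p])
    (hE : FiniteDimensional ℚ_[p] E) {τ : ℂ_[p]} (hτ : IsAlgebraic ℚ_[p] τ) :
    ∃ E' : IntermediateField ℚ_[p] ℂ_[p], FiniteDimensional ℚ_[p] E' ∧ E ≤ E' ∧ τ ∈ E' := by
  have := hE
  have : FiniteDimensional ℚ_[p] (IntermediateField.adjoin ℚ_[p] {τ}) :=
    IntermediateField.adjoin.finiteDimensional hτ.isIntegral
  refine ⟨E ⊔ IntermediateField.adjoin ℚ_[p] {τ}, inferInstance, le_sup_left, ?_⟩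
  exact (le_sup_right : IntermediateField.adjoin ℚ_[p] {τ} ≤ _)
    (IntermediateField.mem_adjoin_simple_self ℚ_[p] τ)

/-- the value of `χ τ` at `ci`, up to an `m`-th power -/
theorem r1_rep (hEVH : ST_EVH) {p n : ℕ} [Fact p.Prime] (K : KD p n) (ci cj : K.A)
    (r : RatFunc K.A) (E : IntermediateField ℚ_[p] ℂ_[p]) (m : ℕ) (hm : 0 < m) (b : K.A)
    (z : RatFunc K.A) (hz0 : z ≠ 0) (hz : Ov K.A E z)
    (hh : K.H m (RatFunc.C ci) = RatFunc.C b * z ^ m * (K.H m (RatFunc.C cj) * r))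
    (E' : IntermediateField ℚ_[p] ℂ_[p]) (hE' : FiniteDimensional ℚ_[p] E') (h0 : K.E₀ ≤ E')
    (hEE' : E ≤ E') (hoi : Ov K.A E' (RatFunc.C ci)) (hoj : Ov K.A E' (RatFunc.C cj))
    (τ : ℂ_[p]) (hτ : τ ∈ E') (hτA : τ ∉ K.A)
    (hi : (K.χ τ).eval (ci : ℂ_[p]) ≠ 0) (hj : (K.χ τ).eval (cj : ℂ_[p]) ≠ 0) :
    ∃ w ∈ E', w ≠ 0 ∧ (K.χ τ).eval (ci : ℂ_[p]) =
      (b : ℂ_[p]) * w ^ m * (ev K.A τ r * (K.χ τ).eval (cj : ℂ_[p])) := by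
  obtain ⟨e, he, -, heC, -, heE⟩ := hEVH p K.A K.acl τ hτA
  have hevi : ev K.A τ (RatFunc.C ci) = ci := by rw [← he, heC]
  have hevj : ev K.A τ (RatFunc.C cj) = cj := by rw [← he, heC]
  obtain ⟨w, hw, hw0, hk⟩ := K.kum E' hE' h0 (RatFunc.C ci) (RatFunc.C cj) hoi hoj τ hτ hτA m hm
    (by rw [hevi]; exact hi) (by rw [hevj]; exact hj)
  rw [hevi, hevj, ← he, ← he, hh] at hk
  simp only [map_mul, map_pow, heC] at hk
  have hz' : e z ≠ 0 := by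
    rw [Ne, map_eq_zero]
    exact hz0
  have hH : e (K.H m (RatFunc.C cj)) ≠ 0 := by
    rw [Ne, map_eq_zero]
    exact K.H0 m _ hm
  refine ⟨e z * w, E'.mul_mem (heE E' hτ z (r1_ov_mono hEE' hz)) hw, mul_ne_zero hz' hw0, ?_⟩
  rw [← he r]
  apply mul_right_cancel₀ hH
  rw [hk]
  ring

theorem st_R1 (hR1A : ST_R1A) (hFCT : ST_FCT) (hPWR : ST_PWR) (hOVE : ST_OVE) (hEVH : ST_EVH)
    (hOVF : ST_OVF) (hORD : ST_ORD) : ST_R1 := by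
  intro p n _ hPP K
  obtain ⟨c, hinj, hne, hc⟩ := hR1A p n hPP K
  refine ⟨c, hinj, hne, fun i j => ?_⟩
  obtain ⟨r, hr0, hr⟩ := hc i j
  -- a field of definition
  obtain ⟨E₁, hE₁, h01, ho1⟩ := hOVE p K.A K.alg K.E₀ K.fin₀ (RatFunc.C (c i))
  obtain ⟨E₂, hE₂, h12, ho2⟩ := hOVE p K.A K.alg E₁ hE₁ (RatFunc.C (c j))
  obtain ⟨E, hE, h23, ho3⟩ := hOVE p K.A K.alg E₂ hE₂ r
  have hoi : ∀ E' : IntermediateField ℚ_[p] ℂ_[p], E ≤ E' → Ov K.A E' (RatFunc.C (c i)) :=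
    fun E' h => ho1 E' (h12.trans (h23.trans h))
  have hoj : ∀ E' : IntermediateField ℚ_[p] ℂ_[p], E ≤ E' → Ov K.A E' (RatFunc.C (c j)) :=
    fun E' h => ho2 E' (h23.trans h)
  have h0E : K.E₀ ≤ E := h01.trans (h12.trans h23)
  obtain ⟨hmul, hinv, -, -, -⟩ := hORD p K.A
  -- representation
  have hrep : ∀ m : ℕ, 0 < m → ∃ (b : K.A) (z : RatFunc K.A), (b : ℂ_[p]) ∈ E ∧ b ≠ 0 ∧ z ≠ 0 ∧
      Ov K.A E z ∧ K.H m (RatFunc.C (c i)) =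
        RatFunc.C b * z ^ m * (K.H m (RatFunc.C (c j)) * r) := by
    intro m hm
    have hHi := K.H0 m (RatFunc.C (c i)) hm
    have hHj := K.H0 m (RatFunc.C (c j)) hm
    have hden : K.H m (RatFunc.C (c j)) * r ≠ 0 := mul_ne_zero hHj hr0
    have hov : Ov K.A E (K.H m (RatFunc.C (c i)) * (K.H m (RatFunc.C (c j)) * r)⁻¹) := by
      obtain ⟨F, hF⟩ := hOVF p K.A E
      rw [← hF]
      have a1 := (hF _).2 (K.Hdef E hE h0E m (RatFunc.C (c i)) hm (hoi E le_rfl))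
      have a2 := (hF _).2 (K.Hdef E hE h0E m (RatFunc.C (c j)) hm (hoj E le_rfl))
      have a3 := (hF _).2 (ho3 E le_rfl)
      exact F.mul_mem a1 (F.inv_mem (F.mul_mem a2 a3))
    have hdiv : ∀ v : K.A, (m : ℤ) ∣
        ordv K.A v (K.H m (RatFunc.C (c i)) * (K.H m (RatFunc.C (c j)) * r)⁻¹) := by
      intro v
      have h1 := hr m hm v
      rw [hmul v _ _ hHi (inv_ne_zero hden), hinv v _ hden, hmul v _ _ hHj hr0]
      have h2 : ordv K.A v (K.H m (RatFunc.C (c i))) +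
          -(ordv K.A v (K.H m (RatFunc.C (c j))) + ordv K.A v r) =
          ordv K.A v (K.H m (RatFunc.C (c i))) - ordv K.A v (K.H m (RatFunc.C (c j))) -
            ordv K.A v r := by ring
      rw [h2]
      exact h1
    obtain ⟨b, z, hbE, hb0, hz0, hz, heq⟩ := hFCT p K.A K.acl E m hm _
      (mul_ne_zero hHi (inv_ne_zero hden)) hov hdiv
    refine ⟨b, z, hbE, hb0, hz0, hz, ?_⟩
    rw [← heq, mul_assoc, inv_mul_cancel₀ hden, mul_one]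
  choose! b z hbE hb0 hz0 hz heq using hrep
  have hkey : ∀ (E' : IntermediateField ℚ_[p] ℂ_[p]), FiniteDimensional ℚ_[p] E' → E ≤ E' →
      ∀ τ ∈ E', IsAlgebraic ℚ_[p] τ → τ ∉ K.A → ∀ m : ℕ, 0 < m →
      ∃ w ∈ E', w ≠ 0 ∧ (K.χ τ).eval (c i : ℂ_[p]) =
        (b m : ℂ_[p]) * w ^ m * (ev K.A τ r * (K.χ τ).eval (c j : ℂ_[p])) := by
    intro E' hE' hEE' τ hτ hτa hτA m hm
    exact r1_rep hEVH K (c i) (c j) r E m hm (b m) (z m) (hz0 m hm) (hz m hm) (heq m hm) E' hE'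
      (h0E.trans hEE') hEE' (hoi E' hEE') (hoj E' hEE') τ hτ hτA (hne i τ hτa hτA)
      (hne j τ hτa hτA)
  have hevr : ∀ τ : ℂ_[p], τ ∉ K.A → ev K.A τ r ≠ 0 := by
    intro τ hτA
    obtain ⟨e, he, -⟩ := hEVH p K.A K.acl τ hτA
    rw [← he, Ne, map_eq_zero]
    exact hr0
  have hcoe : ∀ m : ℕ, 0 < m → (b m : ℂ_[p]) ≠ 0 := by
    intro m hm h
    exact hb0 m hm (Subtype.ext h)
  by_cases hex : ∃ τ : ℂ_[p], IsAlgebraic ℚ_[p] τ ∧ τ ∉ K.A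
  · obtain ⟨τ₀, hτ₀, hτ₀A⟩ := hex
    have hd0 : ev K.A τ₀ r * (K.χ τ₀).eval (c j : ℂ_[p]) ≠ 0 :=
      mul_ne_zero (hevr τ₀ hτ₀A) (hne j τ₀ hτ₀ hτ₀A)
    refine ⟨(K.χ τ₀).eval (c i : ℂ_[p]) / (ev K.A τ₀ r * (K.χ τ₀).eval (c j : ℂ_[p])), r,
      div_ne_zero (hne i τ₀ hτ₀ hτ₀A) hd0, hr0, ?_, ?_⟩
    · obtain ⟨E', hE', hEE', hτE'⟩ := r1_ext E hE hτ₀
      obtain ⟨w, hw, hw0, hk⟩ := hkey E' hE' hEE' τ₀ hτE' hτ₀ hτ₀A 1 one_pos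
      have h1 : (K.χ τ₀).eval (c i : ℂ_[p]) / (ev K.A τ₀ r * (K.χ τ₀).eval (c j : ℂ_[p])) =
          (b 1 : ℂ_[p]) * w ^ 1 := by
        rw [hk, mul_div_assoc, div_self hd0, mul_one]
      rw [h1]
      have h2 : (b 1 : ℂ_[p]) * w ^ 1 ∈ E' :=
        E'.mul_mem (hEE' (hbE 1 one_pos)) (E'.pow_mem hw 1)
      have := hE'
      have h3 : IsAlgebraic ℚ_[p] (⟨_, h2⟩ : E') := Algebra.IsAlgebraic.isAlgebraic _
      exact (isAlgebraic_algebraMap_iff (algebraMap E' ℂ_[p]).injective).2 h3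
    · intro τ hτ hτA
      have hd : ev K.A τ r * (K.χ τ).eval (c j : ℂ_[p]) ≠ 0 :=
        mul_ne_zero (hevr τ hτA) (hne j τ hτ hτA)
      obtain ⟨E₃, hE₃, hEE₃, hτE₃⟩ := r1_ext E hE hτ₀
      obtain ⟨E', hE', hEE', hτE'⟩ := r1_ext E₃ hE₃ hτ
      -- the quotient is an `m`-th power for all `m`
      have hq : ∀ m : ℕ, 0 < m → ∃ y ∈ E',
          ((K.χ τ).eval (c i : ℂ_[p]) / (ev K.A τ r * (K.χ τ).eval (c j : ℂ_[p]))) /
          ((K.χ τ₀).eval (c i : ℂ_[p]) / (ev K.A τ₀ r * (K.χ τ₀).eval (c j : ℂ_[p]))) =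
            y ^ m := by
        intro m hm
        obtain ⟨w, hw, hw0, hk⟩ := hkey E' hE' (hEE₃.trans hEE') τ hτE' hτ hτA m hm
        obtain ⟨w₀, hw₀, hw₀0, hk₀⟩ := hkey E' hE' (hEE₃.trans hEE') τ₀ (hEE' hτE₃) hτ₀ hτ₀A m hm
        refine ⟨w / w₀, E'.div_mem hw hw₀, ?_⟩
        rw [hk, hk₀, mul_div_cancel_right₀ _ hd, mul_div_cancel_right₀ _ hd0,
          mul_div_mul_left _ _ (hcoe m hm), div_pow]
      have hne0 : ((K.χ τ).eval (c i : ℂ_[p]) / (ev K.A τ r * (K.χ τ).eval (c j : ℂ_[p]))) /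
          ((K.χ τ₀).eval (c i : ℂ_[p]) / (ev K.A τ₀ r * (K.χ τ₀).eval (c j : ℂ_[p]))) ≠ 0 :=
        div_ne_zero (div_ne_zero (hne i τ hτ hτA) hd) (div_ne_zero (hne i τ₀ hτ₀ hτ₀A) hd0)
      have hmem : ((K.χ τ).eval (c i : ℂ_[p]) / (ev K.A τ r * (K.χ τ).eval (c j : ℂ_[p]))) /
          ((K.χ τ₀).eval (c i : ℂ_[p]) / (ev K.A τ₀ r * (K.χ τ₀).eval (c j : ℂ_[p]))) ∈ E' := by
        obtain ⟨y, hy, h1⟩ := hq 1 one_pos
        rw [h1]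
        exact E'.pow_mem hy 1
      have h1 := (hPWR p E' hE').1 _ hmem hne0 hq
      have h2 := (div_eq_one_iff_eq (div_ne_zero (hne i τ₀ hτ₀ hτ₀A) hd0)).1 h1
      rw [← h2, mul_assoc, div_mul_cancel₀ _ hd]
  · refine ⟨1, r, one_ne_zero, hr0, isAlgebraic_one, fun τ hτ hτA => ?_⟩
    exact absurd ⟨τ, hτ, hτA⟩ hex

end Pool.Agent.Helper60.FF
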